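import Pool.Agent.W386.M.Final

set_option autoImplicit false

/-!
# The homological virtual surjection theorem

Let `Γ₁, …, Γ_n` be finitely generated groups of type `FP_k` with `2 ≤ k ≤ n`, and let `P` be a
subgroup of `Γ₁ × ⋯ × Γ_n` whose projection to the coordinates in `J` has finite index for every
`J` with `k` elements. Then `P` is of type `FP_k`.
-/

namespace Pool.Agent.Results.MP_d943a5_al.VirtualSurjection

open Pool.Agent.W386.MD
open Pool.Agent.W386 (fi_comap VS HH Supp KJ hh_of_vs vs_main vs_fg)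

theorem result {n k : ℕ} (hk : 2 ≤ k) (hkn : k ≤ n) (Γ : Fin n → Type) [∀ i, Group (Γ i)]
    (hfg : ∀ i, Group.FG (Γ i)) (hΓ : ∀ i, TypeFP k (Γ i))
    (P : Subgroup (∀ i, Γ i))
    (h : ∀ J : Finset (Fin n), J.card = k → (P.map (proj J)).FiniteIndex) :
    Group.FG P ∧ TypeFP k P := by
  have hVS : VS k Finset.univ P := by
    intro J _ hJ
    obtain ⟨J₁, h1, h2⟩ := Finset.exists_superset_card_eq (n := k) hJ (by simpa using hkn)
    have h4 := h J₁ h2
    have h6 : ((P.map (proj J₁)).comap (proj J₁)).FiniteIndex := fi_comap _ _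
    rw [Subgroup.comap_map_eq] at h6
    refine Subgroup.finiteIndex_of_le (H := P ⊔ (proj J₁).ker) (sup_le_sup_left ?_ P)
    intro x hx j hj
    exact congrFun (show proj J₁ x = 1 from hx) ⟨j, h1 hj⟩
  have hHH : HH Finset.univ P := hh_of_vs (fun i => Finset.mem_univ i) (hVS.mono hk)
  have hSupp : Supp Finset.univ P := fun x _ i hi => absurd (Finset.mem_univ i) hi
  refine ⟨vs_fg hfg Finset.univ P hSupp hHH (hVS.mono (by omega)), ?_⟩
  rw [typeFP_iff]
  exact vs_main hfg Finset.univ k P (fun i => (typeFP_iff k).1 (hΓ i)) hSupp hHH hVS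

end Pool.Agent.Results.MP_d943a5_al.VirtualSurjection
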